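import Pool.Graph.R_pool_sql_team_seeded_3997aac3.Q212.VL5

/-!
# Compactness for 2-colourings and a vector space over F_2 with trivial dual

The model is the one of the library module `Pool.Graph.R_pool_sql_team_seeded_3997aac3.Q212.VL5`. It
satisfies the compactness principle for `K_2`, and it contains an infinite vector space over the
field with two elements which has no nonzero linear functional in the model.
-/

set_option autoImplicit false
set_option linter.unusedSectionVars false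
set_option linter.unreachableTactic false
set_option linter.unusedTactic false

namespace Pool.Agent.Results.MP_5f54a2_lc.TrivialDual

open Pool.Agent.W868 Pool.Agent.W868.PName Pool.Agent.Q211.SY Pool.Agent.Q212.VL
open ZFSet (pair)

noncomputable section

/-- The statement that `v 0` is a solution of the homogeneous system that is not `0` at `v 3`. -/
theorem ud_sol' : UD fun _ (v : Fin 4 → ZFSet.{0}) =>
    (∀ x ∈ v 1, (pair x (nat 0) ∈ v 0 ∨ pair x (nat 1) ∈ v 0) ∧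
      ¬ (pair x (nat 0) ∈ v 0 ∧ pair x (nat 1) ∈ v 0)) ∧
    (∀ x ∈ v 1, ∀ y ∈ v 1, ∀ z ∈ v 1, pair x (pair y z) ∈ v 2 →
      ((pair x (nat 0) ∈ v 0 ↔ pair y (nat 0) ∈ v 0) ↔ pair z (nat 0) ∈ v 0)) ∧
    ¬ pair (v 3) (nat 0) ∈ v 0 := by
  (repeat' first
    | assumption
    | exact UF.proj _
    | exact UF.om
    | exact UF.nat _
    | exact UD.prop _
    | apply UD.not | apply UD.and | apply UD.or | apply UD.imp | apply UD.iff
    | apply UD.bex | apply UD.ball | apply UD.ex | apply UD.all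
    | apply UD.eq | apply UD.mem | apply UF.pair)

/-- No linear functional of the model is nonzero. -/
theorem no_fun {π : Pkg P} (h : IsMod π) (e : Vs) :
    ¬ ∃ f ∈ SL.Ms π, IsSol (π.val AN) (π.val R0N) ∅ f ∧ pair (π.val (xn e)) (nat 1) ∈ f := by
  rintro ⟨_, ⟨φ, ⟨hφN, hφS⟩, rfl⟩, ⟨hf1, hf2⟩, hfe⟩
  obtain ⟨E0, hE0, hfE0⟩ := sym_iff.1 hφS.sym
  set E := E0 ⊔ Submodule.span F2 {e} with hEdef
  have hE : FiniteDimensional F2 E := inferInstance
  have heE : e ∈ E := Submodule.mem_sup_right (Submodule.mem_span_singleton_self _)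
  have hfE : Fx E φ := hfE0.mono le_sup_left
  -- the statement
  have hx : ∀ i, ![φ, AN, R0N, xn e] i ∈ π.N ∧ SL.HS (![φ, AN, R0N, xn e] i) := by
    intro i
    fin_cases i
    exacts [⟨hφN, hφS⟩, ⟨h.an, hs_AN⟩, ⟨h.r0, hs_R0N⟩, ⟨h.xn e, hs_xn e⟩]
  have hxE : ∀ i, Fx E (![φ, AN, R0N, xn e] i) := by
    intro i
    fin_cases i
    exacts [hfE, fx_AN E, fx_R0N E, fx_xn heE]
  have hval : ∀ x ∈ π.val AN, (pair x (nat 0) ∈ π.val φ ∧ pair x (nat 1) ∉ π.val φ) ∨
      (pair x (nat 1) ∈ π.val φ ∧ pair x (nat 0) ∉ π.val φ) := by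
    intro x hx
    obtain ⟨i, hi, hu⟩ := hf1.2 x hx
    rcases mem_two.1 (ZFSet.pair_mem_prod.1 (hf1.1 hi)).2 with rfl | rfl
    · exact Or.inl ⟨hi, fun h1 => nat01 (hu _ h1).symm⟩
    · exact Or.inr ⟨hi, fun h1 => nat01 (hu _ h1)⟩
  obtain ⟨k0, hk0⟩ := (Sys.frc_iff ud_sol' h.cl hx).1 (by
    refine ⟨fun x hx => ?_, fun x hx y hy z hz hxyz => ?_, fun hx0 => ?_⟩
    · rcases hval x hx with h1 | h1
      · exact ⟨Or.inl h1.1, fun h2 => h1.2 h2.2⟩
      · exact ⟨Or.inr h1.1, fun h2 => h1.2 h2.1⟩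
    · have h3 := fun i j k hi hj hk => (hf2 x hx y hy z hz i j k hi hj hk).1 hxyz
      change (pair x (nat 0) ∈ π.val φ ↔ pair y (nat 0) ∈ π.val φ) ↔ pair z (nat 0) ∈ π.val φ
      rcases hval x hx with h4 | h4 <;> rcases hval y hy with h5 | h5 <;>
        rcases hval z hz with h6 | h6
      · tauto
      · exact absurd (h3 0 0 1 h4.1 h5.1 h6.1) (by norm_num)
      · exact absurd (h3 0 1 0 h4.1 h5.1 h6.1) (by norm_num)
      · tauto
      · exact absurd (h3 1 0 0 h4.1 h5.1 h6.1) (by norm_num)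
      · tauto
      · tauto
      · exact absurd (h3 1 1 1 h4.1 h5.1 h6.1) (by norm_num)
    · rcases hval _ ((h.mem_A).2 ⟨e, rfl⟩) with h1 | h1
      · exact h1.2 hfe
      · exact h1.2 hx0)
  obtain ⟨v0, hv0⟩ := exists_notMem hE
  set F := E ⊔ Submodule.span F2 {v0} with hFdef
  have hF : FiniteDimensional F2 F := inferInstance
  have hv0F : v0 ∈ F := Submodule.mem_sup_right (Submodule.mem_span_singleton_self _)
  -- decide the value at `v0`
  have hy : ∀ i, ![xn v0, φ] i ∈ π.N ∧ SL.HS (![xn v0, φ] i) := by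
    intro i
    fin_cases i
    exacts [⟨h.xn v0, hs_xn v0⟩, ⟨hφN, hφS⟩]
  have hyF : ∀ i, Fx F (![xn v0, φ] i) := by
    intro i
    fin_cases i
    exacts [fx_xn hv0F, hfE.mono le_sup_left]
  obtain ⟨τ, hτ⟩ : ∃ τ : Prop, τ = (pair (π.val (xn v0)) (nat 0) ∈ π.val φ) := ⟨_, rfl⟩
  have hdec : ∃ k1, (τ → SL.Frc ud_z ![xn v0, φ] (π.g k1)) ∧
      (¬ τ → SL.Frc ud_z.not ![xn v0, φ] (π.g k1)) := by
    by_cases ht : τ
    · obtain ⟨k, hk⟩ := (Sys.frc_iff ud_z h.cl hy).1 (by rw [hτ] at ht; exact ht)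
      exact ⟨k, fun _ => hk, fun h => absurd ht h⟩
    · obtain ⟨k, hk⟩ := (Sys.frc_iff ud_z.not h.cl hy).1 (by rw [hτ] at ht; exact ht)
      exact ⟨k, fun h => absurd h ht, fun _ => hk⟩
  obtain ⟨k1, hk1⟩ := hdec
  set q := res (π.g (max k0 k1)) F with hq
  have hq0 : SL.Frc ud_sol' ![φ, AN, R0N, xn e] q :=
    frc_res hF (fun i => (hxE i).mono le_sup_left) (hk0.mono (π.g_le_left _ _))
  have hq1 : τ → SL.Frc ud_z ![xn v0, φ] q := fun ht =>
    frc_res hF hyF ((hk1.1 ht).mono (π.g_le_right _ _))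
  have hq2 : ¬ τ → SL.Frc ud_z.not ![xn v0, φ] q := fun ht =>
    frc_res hF hyF ((hk1.2 ht).mono (π.g_le_right _ _))
  have hqF : ∀ u n b, ((u, n), b) ∈ q.1 → u ∈ F := fun u n b hb => (mem_res.1 hb).2
  -- translates
  have htr1 : ∀ g ∈ Hb E, SL.Frc ud_sol' ![φ, AN, R0N, xn e] (sm g q) := fun g hg =>
    Sys.frc_fix (S := SL) hxE hg hq0
  have hact : ∀ g ∈ Hb E, ∀ p, ∀ i, Feq (act (SL.ac g) (![xn v0, φ] i)) (![xn (g v0), φ] i) p := by
    intro g hg p i
    fin_cases i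
    · change Feq (ap g (xn v0)) (xn (g v0)) p
      rw [ap_xn]
      exact Feq.refl _ _
    · exact hfE g hg p
  have htr2 : τ → ∀ g ∈ Hb E, SL.Frc ud_z ![xn (g v0), φ] (sm g q) := by
    intro ht g hg
    have h1 : SL.Frc ud_z (fun i => act (SL.ac g) (![xn v0, φ] i)) (SL.ac g q) :=
      (Sys.frc_act g).2 (hq1 ht)
    exact (Sys.frc_congr (hact g hg _)).1 h1
  have htr3 : ¬ τ → ∀ g ∈ Hb E, SL.Frc ud_z.not ![xn (g v0), φ] (sm g q) := by
    intro ht g hg
    have h1 : SL.Frc ud_z.not (fun i => act (SL.ac g) (![xn v0, φ] i)) (SL.ac g q) :=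
      (Sys.frc_act g).2 (hq2 ht)
    exact (Sys.frc_congr (hact g hg _)).1 h1
  -- compatibility of the translates
  have hcpt : ∀ g ∈ Hb E, ∀ k ∈ Hb E, g v0 ∉ E → k v0 ∉ E → g v0 + k v0 ∉ E →
      Cpt (sm g q) (sm k q) := by
    intro g hg k hk hgv hkv hgk u n b b' h1 h2
    obtain ⟨x, rfl, h3⟩ := mem_sm'.1 h1
    obtain ⟨y, h4, h5⟩ := mem_sm'.1 h2
    have hx := mem_sup_span.1 (hqF _ _ _ h3)
    have hy := mem_sup_span.1 (hqF _ _ _ h5)
    have hg' : ∀ x, x + v0 ∈ E → g x = (x + v0) + g v0 := by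
      intro x hx
      have h6 := hg _ hx
      rw [map_add] at h6
      rw [← h6, add_assoc, add_self', add_zero]
    have hk' : ∀ x, x + v0 ∈ E → k x = (x + v0) + k v0 := by
      intro x hx
      have h6 := hk _ hx
      rw [map_add] at h6
      rw [← h6, add_assoc, add_self', add_zero]
    rcases hx with hx | hx <;> rcases hy with hy | hy
    · rw [hg x hx, hk y hy] at h4
      subst h4
      exact q.2 _ _ _ h3 h5
    · exfalso
      rw [hg x hx, hk' y hy] at h4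
      apply hkv
      have h6 : k v0 = (y + v0) + x := by
        rw [h4, ← add_assoc, add_self', zero_add]
      rw [h6]
      exact Submodule.add_mem _ hy hx
    · exfalso
      rw [hg' x hx, hk y hy] at h4
      apply hgv
      have h6 : g v0 = (x + v0) + y := by
        rw [← h4, ← add_assoc, add_self', zero_add]
      rw [h6]
      exact Submodule.add_mem _ hx hy
    · exfalso
      rw [hg' x hx, hk' y hy] at h4
      apply hgk
      have h6 : g v0 + k v0 = (x + v0) + (y + v0) := by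
        have h7 : g v0 = (x + v0) + ((y + v0) + k v0) := by
          rw [← h4, ← add_assoc, add_self', zero_add]
        rw [h7]
        have h8 : (x + v0) + ((y + v0) + k v0) + k v0 =
            (x + v0) + (y + v0) + (k v0 + k v0) := by abel
        rw [h8, add_self', add_zero]
      rw [h6]
      exact Submodule.add_mem _ hx hy
  -- the vectors
  obtain ⟨v1, hv1⟩ := exists_notMem hF
  obtain ⟨v2, hv2⟩ := exists_notMem (E := F ⊔ Submodule.span F2 {v1}) inferInstance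
  have hEF : E ≤ F := le_sup_left
  have hv1' : ∀ x ∈ F, v1 + x ∉ F := fun x hx hx' => hv1 (by
    have := Submodule.add_mem _ hx' hx
    rwa [add_assoc, add_self', add_zero] at this)
  have hv2' : ∀ x ∈ F ⊔ Submodule.span F2 {v1}, v2 + x ∉ F ⊔ Submodule.span F2 {v1} :=
    fun x hx hx' => hv2 (by
      have := Submodule.add_mem _ hx' hx
      rwa [add_assoc, add_self', add_zero] at this)
  have hv1s : v1 ∈ F ⊔ Submodule.span F2 {v1} :=
    Submodule.mem_sup_right (Submodule.mem_span_singleton_self _)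
  have hFs : F ≤ F ⊔ Submodule.span F2 {v1} := le_sup_left
  have hw1 : v1 ∉ E := fun h1 => hv1 (hEF h1)
  have hw2 : v0 + v1 ∉ E := fun h1 => hv1' v0 hv0F (by
    rw [add_comm]
    exact hEF h1)
  have hw3 : v2 ∉ E := fun h1 => hv2 (hFs (hEF h1))
  have hw4 : v0 + e + v2 ∉ E := fun h1 =>
    hv2' (v0 + e) (hFs (Submodule.add_mem _ hv0F (hEF heE))) (by
      rw [add_comm]
      exact hFs (hEF h1))
  obtain ⟨g1, hg1, e1⟩ := exists_move hE hv0 hw1
  obtain ⟨g2, hg2, e2⟩ := exists_move hE hv0 hw2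
  obtain ⟨g3, hg3, e3⟩ := exists_move hE hv0 hw3
  obtain ⟨g4, hg4, e4⟩ := exists_move hE hv0 hw4
  have c12 := hcpt g1 hg1 g2 hg2 (e1 ▸ hw1) (e2 ▸ hw2) (by
    rw [e1, e2]
    have h1 : v1 + (v0 + v1) = v0 + (v1 + v1) := by abel
    rw [h1, add_self', add_zero]
    exact hv0)
  have c13 := hcpt g1 hg1 g3 hg3 (e1 ▸ hw1) (e3 ▸ hw3) (by
    rw [e1, e3]
    intro h1
    refine hv2' v1 hv1s ?_
    rw [add_comm]
    exact hFs (hEF h1))
  have c23 := hcpt g2 hg2 g3 hg3 (e2 ▸ hw2) (e3 ▸ hw3) (by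
    rw [e2, e3]
    intro h1
    refine hv2' (v0 + v1) (Submodule.add_mem _ (hFs hv0F) hv1s) ?_
    rw [add_comm]
    exact hFs (hEF h1))
  have c14 := hcpt g1 hg1 g4 hg4 (e1 ▸ hw1) (e4 ▸ hw4) (by
    rw [e1, e4]
    intro h1
    refine hv2' (v1 + (v0 + e)) (Submodule.add_mem _ hv1s
      (hFs (Submodule.add_mem _ hv0F (hEF heE)))) ?_
    have h2 : v2 + (v1 + (v0 + e)) = v1 + (v0 + e + v2) := by abel
    rw [h2]
    exact hFs (hEF h1))
  have c24 := hcpt g2 hg2 g4 hg4 (e2 ▸ hw2) (e4 ▸ hw4) (by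
    rw [e2, e4]
    intro h1
    refine hv2' ((v0 + v1) + (v0 + e)) (Submodule.add_mem _
      (Submodule.add_mem _ (hFs hv0F) hv1s)
      (hFs (Submodule.add_mem _ hv0F (hEF heE)))) ?_
    have h2 : v2 + ((v0 + v1) + (v0 + e)) = v0 + v1 + (v0 + e + v2) := by abel
    rw [h2]
    exact hFs (hEF h1))
  have c34 := hcpt g3 hg3 g4 hg4 (e3 ▸ hw3) (e4 ▸ hw4) (by
    rw [e3, e4]
    intro h1
    have h2 : v2 + (v0 + e + v2) = v0 + e + (v2 + v2) := by abel
    rw [h2, add_self', add_zero] at h1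
    refine hv0 ?_
    have h3 := Submodule.add_mem _ h1 heE
    rwa [add_assoc, add_self', add_zero] at h3)
  have d3 : Cpt (un _ _ c12) (sm g3 q) := Cpt.un c13 c23
  have d4 : Cpt (un _ _ d3) (sm g4 q) := Cpt.un (Cpt.un c14 c24) c34
  set s := un _ _ d4 with hs
  have hs1 : s ≤ sm g1 q := un_left.trans (un_left.trans un_left)
  have hs2 : s ≤ sm g2 q := un_left.trans (un_left.trans un_right)
  have hs3 : s ≤ sm g3 q := un_left.trans un_right
  have hs4 : s ≤ sm g4 q := un_right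
  obtain ⟨π', h', hA, hg0⟩ := exists_mod {φ} (Set.countable_singleton _) s
  have hφN' : φ ∈ π'.N := hA rfl
  have hsol := (Sys.frc_sem (fun i => (hx i).2)).1 (htr1 g1 hg1) π' h'.cl (by
    intro i
    fin_cases i
    exacts [hφN', h'.an, h'.r0, h'.xn e]) ⟨0, hg0.le.trans hs1⟩
  obtain ⟨-, hs5, hs6⟩ := hsol
  have hT : ∀ g ∈ Hb E, s ≤ sm g q → (τ ↔ pair (π'.val (xn (g v0))) (nat 0) ∈ π'.val φ) := by
    intro g hg hsg
    have hyg : ∀ i, SL.HS (![xn (g v0), φ] i) := by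
      intro i
      fin_cases i
      exacts [hs_xn _, hφS]
    have hygN : ∀ i, ![xn (g v0), φ] i ∈ π'.N := by
      intro i
      fin_cases i
      exacts [h'.xn _, hφN']
    constructor
    · intro ht
      exact (Sys.frc_sem hyg).1 (htr2 ht g hg) π' h'.cl hygN ⟨0, hg0.le.trans hsg⟩
    · intro ht
      by_contra hnt
      exact (Sys.frc_sem hyg).1 (htr3 hnt g hg) π' h'.cl hygN ⟨0, hg0.le.trans hsg⟩ ht
  have t1 := hT g1 hg1 hs1
  have t2 := hT g2 hg2 hs2
  have t3 := hT g3 hg3 hs3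
  have t4 := hT g4 hg4 hs4
  rw [e1] at t1
  rw [e2] at t2
  rw [e3] at t3
  rw [e4] at t4
  have hA' : ∀ v, π'.val (xn v) ∈ π'.val AN := fun v => (h'.mem_A).2 ⟨v, rfl⟩
  have hadd : ∀ u v, (pair (π'.val (xn u)) (nat 0) ∈ π'.val φ ↔
      pair (π'.val (xn v)) (nat 0) ∈ π'.val φ) ↔
      pair (π'.val (xn (u + v))) (nat 0) ∈ π'.val φ := fun u v =>
    hs5 _ (hA' u) _ (hA' v) _ (hA' _) ((h'.mem_R0).2 ⟨u, v, rfl⟩)
  have a1 := hadd v1 (v0 + v1)
  have a2 := hadd v2 (v0 + e + v2)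
  have a3 := hadd v0 (v0 + e)
  have b1 : v1 + (v0 + v1) = v0 := by
    have h1 : v1 + (v0 + v1) = v0 + (v1 + v1) := by abel
    rw [h1, add_self', add_zero]
  have b2 : v2 + (v0 + e + v2) = v0 + e := by
    have h1 : v2 + (v0 + e + v2) = v0 + e + (v2 + v2) := by abel
    rw [h1, add_self', add_zero]
  have b3 : v0 + (v0 + e) = e := by
    rw [← add_assoc, add_self', zero_add]
  rw [b1] at a1
  rw [b2] at a2
  rw [b3] at a3
  have hz' : ¬ pair (π'.val (xn e)) (nat 0) ∈ π'.val φ := hs6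
  exact logic_aux t1 t2 t3 t4 a1 a2 a3 hz'


/-- The linear functional `w ↦ w i` on finite subsets. -/
theorem fin_fun {π : Pkg P} (h : IsMod π) {a : ZFSet.{0}} (ha : a ⊆ π.val AN)
    (hfin : {z | z ∈ a}.Finite) (i₀ : ℕ) : ∃ f ∈ SL.Ms π, IsSol a (π.val R0N) ∅ f ∧
      ∀ v : Vs, π.val (xn v) ∈ a → pair (π.val (xn v)) (nat (v i₀).val) ∈ f := by
  classical
  have hM := T_ZF.isZF h.cl
  have h1 : ∀ z ∈ a, ∃ v, z = π.val (xn v) := fun z hz => (h.mem_A).1 (ha hz)
  choose! V hV using h1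
  obtain ⟨f, hf, hf'⟩ := fin_mem hM ((fun z => pair z (nat ((V z) i₀).val)) '' {z | z ∈ a})
    (hfin.image _) (by
      rintro _ ⟨z, hz, rfl⟩
      refine hM.pair_mem ?_ (hM.nat_mem _)
      rw [hV z hz]
      exact Sys.mem_Ms (h.xn _) (hs_xn _))
  have key : ∀ z ∈ a, ∀ y, pair z y ∈ f ↔ y = nat ((V z) i₀).val := by
    intro z hz y
    rw [hf']
    constructor
    · rintro ⟨w, hw, h2⟩
      obtain ⟨rfl, rfl⟩ := ZFSet.pair_inj.1 h2
      rfl
    · rintro rfl
      exact ⟨z, hz, rfl⟩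
  have hVx : ∀ v, π.val (xn v) ∈ a → V (π.val (xn v)) = v := fun v hv =>
    (h.xs_inj (hV _ hv)).symm
  refine ⟨f, hf, ⟨⟨fun p hp => ?_, fun z hz => ?_⟩, ?_⟩, fun v hv => ?_⟩
  · obtain ⟨z, hz, rfl⟩ := (hf' p).1 hp
    refine ZFSet.pair_mem_prod.2 ⟨hz, ?_⟩
    rw [mem_two]
    rcases val_mod ((V z) i₀) with h3 | h3
    · rw [h3]; exact Or.inl rfl
    · rw [h3]; exact Or.inr rfl
  · exact ⟨_, (key z hz _).2 rfl, fun y hy => (key z hz y).1 hy⟩
  · intro x hx y hy z hz i j k hi hj hk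
    have hi' := nat_injective ((key x hx _).1 hi)
    have hj' := nat_injective ((key y hy _).1 hj)
    have hk' := nat_injective ((key z hz _).1 hk)
    constructor
    · intro hR
      obtain ⟨u, v, h3⟩ := (h.mem_R0).1 hR
      obtain ⟨rfl, h4⟩ := ZFSet.pair_inj.1 h3
      obtain ⟨rfl, rfl⟩ := ZFSet.pair_inj.1 h4
      rw [hVx _ hx] at hi'
      rw [hVx _ hy] at hj'
      rw [hVx _ hz] at hk'
      rw [hi', hj', hk', Finsupp.add_apply]
      rcases two_cases (u i₀) with h5 | h5 <;> rcases two_cases (v i₀) with h6 | h6 <;>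
        rw [h5, h6] <;> decide
    · intro hR
      exact absurd hR (ZFSet.notMem_empty _)
  · rw [key _ hv, hVx v hv]

/-- There is a countable transitive model `M` of ZF in which the compactness principle for `K_2`
holds and which contains a set `A` and a relation `R`, with `(A, R)` isomorphic (outside `M`) to the
vector space of the finitely supported functions from `ℕ` to the field with two elements with its
addition table, such that:
* for every function `f : A → {0, 1}` in `M` which solves the homogeneous system `x + y + z = 0`,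
  `(x, y, z) ∈ R` (a linear functional), `f` is constantly `0`;
* for every nonzero `e ∈ A` and every finite subset `a` of `A` there is in `M` a solution
  `f : a → {0, 1}` of the equations with variables in `a` that has the value `1` at `e` if
  `e ∈ a`.
In particular `K_{3LIN_2}` fails in `M`. -/
theorem result : ∃ M : Set ZFSet.{0}, M.Countable ∧ IsZF M ∧ KK2 M ∧ ¬ K3LIN2 M ∧
    ∃ A ∈ M, ∃ R ∈ M, ∃ x : (ℕ →₀ ZMod 2) → ZFSet.{0}, Function.Injective x ∧
      (∀ z, z ∈ A ↔ ∃ v, z = x v) ∧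
      (∀ z, z ∈ R ↔ ∃ u v, z = pair (x u) (pair (x v) (x (u + v)))) ∧
      (∀ f ∈ M, IsSol A R ∅ f → ∀ z ∈ A, pair z (nat 0) ∈ f) ∧
      ∀ e : ℕ →₀ ZMod 2, e ≠ 0 → ∀ a ∈ M, a ⊆ A → {z | z ∈ a}.Finite →
        ∃ f ∈ M, IsSol a R ∅ f ∧ (x e ∈ a → pair (x e) (nat 1) ∈ f) := by
  obtain ⟨π, h, -, -⟩ := exists_mod ∅ Set.countable_empty ⊤
  have hM := T_ZF.isZF h.cl
  refine ⟨SL.Ms π, ?_, hM, kk2_of_pairChoice hM (pairChoice h.cl h.rq), fun hK => ?_,
    π.val AN, Sys.mem_Ms h.an hs_AN, π.val R0N, Sys.mem_Ms h.r0 hs_R0N, fun v => π.val (xn v),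
    fun u v huv => h.xs_inj huv, fun z => h.mem_A, fun z => h.mem_R0, fun f hf hs z hz => ?_,
    fun e he a _ ha hfin => ?_⟩
  · refine (π.countable_W).mono ?_
    rintro _ ⟨x, hx, rfl⟩
    exact ⟨x, hx.1, rfl⟩
  · refine no_sol h (hK _ (Sys.mem_Ms h.an hs_AN) _ (Sys.mem_Ms h.r0 hs_R0N) _
      (Sys.mem_Ms h.r1 hs_R1N) fun a _ ha hfin => ?_)
    exact fin_sol h ha hfin
  · obtain ⟨v, rfl⟩ := (h.mem_A).1 hz
    obtain ⟨i, hi, hu⟩ := hs.1.2 _ hz
    rcases mem_two.1 (ZFSet.pair_mem_prod.1 (hs.1.1 hi)).2 with rfl | rfl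
    · exact hi
    · exact absurd ⟨f, hf, hs, hi⟩ (no_fun h v)
  · obtain ⟨i₀, hi₀⟩ : ∃ i, e i ≠ 0 := by
      by_contra hcon
      push Not at hcon
      exact he (Finsupp.ext hcon)
    obtain ⟨f, hf, hs, hv⟩ := fin_fun h ha hfin i₀
    refine ⟨f, hf, hs, fun hea => ?_⟩
    have h1 := hv e hea
    rcases two_cases (e i₀) with h2 | h2
    · exact absurd h2 hi₀
    · rw [h2] at h1
      exact h1

end

end Pool.Agent.Results.MP_5f54a2_lc.TrivialDual
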